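import Mathlib

/-! # A finer Polish topology with continuous right translations on a Polish group -/

set_option autoImplicit false

open Set Topology Filter TopologicalSpace

namespace Pool.Agent.Q302.NS

/-- A basis of one topology, up to meagre sets for a coarser Polish topology. -/
theorem exists_open_of_borel {G : Type} (p τ : TopologicalSpace G)
    (hp : @PolishSpace G p) (hτ : @PolishSpace G τ) (hle : τ ≤ p) {U : Set G}
    (hU : IsOpen[τ] U) :
    ∃ V : Set G, IsOpen[p] V ∧ {x | x ∈ U ↔ x ∈ V} ∈ @residual G p := by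
  have hb : @borel G τ = @borel G p := by
    refine (MeasureTheory.borel_eq_borel_of_le hτ ?_ hle).symm ▸ rfl
    exact inferInstance
  let _ : TopologicalSpace G := p
  let _ : MeasurableSpace G := @borel G p
  have : BorelSpace G := ⟨rfl⟩
  have hm : MeasurableSet U := by
    change @MeasurableSet G (@borel G p) U
    rw [← hb]
    exact MeasurableSpace.measurableSet_generateFrom hU
  obtain ⟨V, hV, h⟩ := hm.residualEq_isOpen
  refine ⟨V, hV, ?_⟩
  filter_upwards [h] with x hx
  exact Iff.of_eq hx

/-- **Automatic continuity.** -/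
theorem eq_of_le {G : Type} [Group G] (p τ : TopologicalSpace G)
    (hp : @PolishSpace G p) (hτ : @PolishSpace G τ) (hle : τ ≤ p)
    (hpl : ∀ g : G, @Continuous G G p p (fun x => g * x))
    (hpr : ∀ g : G, @Continuous G G p p (fun x => x * g))
    (hτr : ∀ g : G, @Continuous G G τ τ (fun x => x * g)) : τ = p := by
  refine le_antisymm hle ?_
  -- the comeagre set
  obtain ⟨b, hbc, -, hb⟩ := @exists_countable_basis G τ (@PolishSpace.toSecondCountableTopology G τ hτ)
  have h1 : ∀ U : b, ∃ V : Set G, IsOpen[p] V ∧ {x | x ∈ (U : Set G) ↔ x ∈ V} ∈ @residual G p :=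
    fun U => exists_open_of_borel p τ hp hτ hle (hb.isOpen U.2)
  choose V hVo hV using h1
  have : Countable b := hbc
  have hC : (⋂ U : b, {x | x ∈ (U : Set G) ↔ x ∈ V U}) ∈ @residual G p :=
    countable_iInter_mem.2 hV
  set C : Set G := ⋂ U : b, {x | x ∈ (U : Set G) ↔ x ∈ V U} with hCdef
  -- translates are comeagre
  have htr : ∀ g : G, (fun x => g * x) ⁻¹' C ∈ @residual G p := by
    let _ : TopologicalSpace G := p
    intro g
    let e : G ≃ₜ G := ⟨Equiv.mulLeft g, hpl g, hpl g⁻¹⟩
    have := e.isOpenMap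
    exact (tendsto_residual_of_isOpenMap e.continuous e.isOpenMap) hC
  let _ : TopologicalSpace G := p
  have := hp
  -- continuity of the identity by sequences
  have hid : @Continuous G G p τ id := by
    refine @SeqContinuous.continuous G G p τ _ id ?_
    intro k a hk
    have hres : ((fun x => a * x) ⁻¹' C ∩ ⋂ n : ℕ, (fun x => k n * x) ⁻¹' C) ∈ residual G :=
      inter_mem (htr a) (countable_iInter_mem.2 fun n => htr (k n))
    have : BaireSpace G := inferInstance
    have : Nonempty G := ⟨1⟩
    obtain ⟨h, hh⟩ := (dense_of_mem_residual hres).nonempty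
    have h2 : Tendsto (fun n => k n * h) atTop (@nhds G τ (a * h)) := by
      refine (@IsTopologicalBasis.nhds_hasBasis G τ b hb (a * h)).tendsto_right_iff.2 ?_
      rintro U ⟨hU, haU⟩
      have h3 : a * h ∈ V ⟨U, hU⟩ := ((mem_iInter.1 hh.1 ⟨U, hU⟩ : _ ↔ _)).1 haU
      have h4 : Tendsto (fun n => k n * h) atTop (𝓝 (a * h)) := ((hpr h).tendsto a).comp hk
      filter_upwards [h4 ((hVo ⟨U, hU⟩).mem_nhds h3)] with n hn
      exact ((mem_iInter.1 (mem_iInter.1 hh.2 n) ⟨U, hU⟩ : _ ↔ _)).2 hn
    have h5 := (@Continuous.tendsto G G τ τ _ (hτr h⁻¹) (a * h)).comp h2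
    simp only [mul_inv_cancel_right, Function.comp_def] at h5
    exact h5
  exact continuous_id_iff_le.1 hid

end Pool.Agent.Q302.NS
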