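import Mathlib

/-! # The semigroup of permutations and constants, and its topologies -/

set_option autoImplicit false

open Set Topology Filter TopologicalSpace

namespace Pool.Agent.Q302.NS

/-- The points: the natural numbers and `k` fixed points. -/
abbrev X (k : ℕ) : Type := ℕ ⊕ Fin k

/-- The action of a permutation on the points. -/
def act {k : ℕ} (g : Equiv.Perm ℕ) : X k → X k := Sum.map g id

/-- The semigroup: permutations and constants. -/
def Sg (k : ℕ) : Type := Equiv.Perm ℕ ⊕ X k

/-- The multiplication. -/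
def mulS {k : ℕ} : Sg k → Sg k → Sg k
  | Sum.inl g, Sum.inl h => Sum.inl (g * h)
  | Sum.inl g, Sum.inr x => Sum.inr (act g x)
  | Sum.inr x, _ => Sum.inr x

theorem act_mul {k : ℕ} (g h : Equiv.Perm ℕ) (x : X k) : act (g * h) x = act g (act h x) := by
  cases x <;> rfl

theorem act_one {k : ℕ} (x : X k) : act 1 x = x := by
  cases x <;> rfl

instance instSemigroupSg (k : ℕ) : Semigroup (Sg k) where
  mul := mulS
  mul_assoc a b c := by
    change mulS (mulS a b) c = mulS a (mulS b c)
    rcases a with g | x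
    · rcases b with h | y
      · rcases c with l | z
        · exact congrArg Sum.inl (mul_assoc g h l)
        · exact congrArg Sum.inr (act_mul g h z)
      · rfl
    · rfl

/-- A permutation as an element. -/
def iG {k : ℕ} (g : Equiv.Perm ℕ) : Sg k := Sum.inl g
/-- A constant as an element. -/
def iX {k : ℕ} (x : X k) : Sg k := Sum.inr x

theorem iG_mul_iG {k : ℕ} (g h : Equiv.Perm ℕ) : (iG g * iG h : Sg k) = iG (g * h) := rfl
theorem iG_mul_iX {k : ℕ} (g : Equiv.Perm ℕ) (x : X k) : iG g * iX x = iX (act g x) := rfl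
theorem iX_mul {k : ℕ} (x : X k) (s : Sg k) : iX x * s = iX x := rfl
theorem iG_injective {k : ℕ} : Function.Injective (iG (k := k)) := Sum.inl_injective
theorem iX_injective {k : ℕ} : Function.Injective (iX (k := k)) := Sum.inr_injective
theorem iG_ne_iX {k : ℕ} (g : Equiv.Perm ℕ) (x : X k) : (iG g : Sg k) ≠ iX x := Sum.inl_ne_inr

/-! ### The pointwise topology on the permutations -/

/-- The pointwise topology. -/
@[reducible] def τp : TopologicalSpace (Equiv.Perm ℕ) :=
  TopologicalSpace.induced (fun g => ((g : ℕ → ℕ), (g.symm : ℕ → ℕ))) inferInstance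

theorem isClosedEmbedding_τp :
    @IsClosedEmbedding _ _ τp _ (fun g : Equiv.Perm ℕ => ((g : ℕ → ℕ), (g.symm : ℕ → ℕ))) := by
  let _ : TopologicalSpace (Equiv.Perm ℕ) := τp
  refine ⟨⟨⟨rfl⟩, fun g h hgh => ?_⟩, ?_⟩
  · exact Equiv.coe_fn_injective (Prod.ext_iff.1 hgh).1
  · have h1 : range (fun g : Equiv.Perm ℕ => ((g : ℕ → ℕ), (g.symm : ℕ → ℕ))) =
        ⋂ n : ℕ, ⋂ m : ℕ, {q : (ℕ → ℕ) × (ℕ → ℕ) | q.1 n = m ↔ q.2 m = n} := by
      ext ⟨f, f'⟩
      simp only [mem_range, mem_iInter, Set.mem_ofPred_eq, Prod.mk.injEq]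
      constructor
      · rintro ⟨g, rfl, rfl⟩ n m
        exact ⟨fun h => by rw [← h, Equiv.symm_apply_apply], fun h => by
          rw [← h, Equiv.apply_symm_apply]⟩
      · intro h
        exact ⟨⟨f, f', fun n => (h n (f n)).1 rfl, fun m => (h (f' m) m).2 rfl⟩, rfl, rfl⟩
    rw [h1]
    refine isClosed_iInter fun n => isClosed_iInter fun m => ?_
    have h2 : Continuous fun q : (ℕ → ℕ) × (ℕ → ℕ) => (q.1 n, q.2 m) :=
      ((continuous_apply n).comp continuous_fst).prodMk ((continuous_apply m).comp continuous_snd)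
    exact (isClosed_discrete {r : ℕ × ℕ | r.1 = m ↔ r.2 = n}).preimage h2

theorem polish_τp : @PolishSpace (Equiv.Perm ℕ) τp :=
  @IsClosedEmbedding.polishSpace _ _ τp _ _ _ isClosedEmbedding_τp

theorem continuous_eval_τp (n : ℕ) : @Continuous _ _ τp _ (fun g : Equiv.Perm ℕ => g n) := by
  let _ : TopologicalSpace (Equiv.Perm ℕ) := τp
  exact (continuous_apply n).comp (continuous_fst.comp isClosedEmbedding_τp.continuous)

theorem continuous_eval_symm_τp (n : ℕ) :
    @Continuous _ _ τp _ (fun g : Equiv.Perm ℕ => g.symm n) := by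
  let _ : TopologicalSpace (Equiv.Perm ℕ) := τp
  exact (continuous_apply n).comp (continuous_snd.comp isClosedEmbedding_τp.continuous)

theorem continuous_mul_τp : @Continuous (Equiv.Perm ℕ × Equiv.Perm ℕ) (Equiv.Perm ℕ)
    (@instTopologicalSpaceProd _ _ τp τp) τp (fun q => q.1 * q.2) := by
  let _ : TopologicalSpace (Equiv.Perm ℕ) := τp
  have hev : Continuous fun q : Equiv.Perm ℕ × ℕ => q.1 q.2 :=
    continuous_prod_of_discrete_right.2 fun n => continuous_eval_τp n
  have hev' : Continuous fun q : Equiv.Perm ℕ × ℕ => q.1.symm q.2 :=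
    continuous_prod_of_discrete_right.2 fun n => continuous_eval_symm_τp n
  refine continuous_induced_rng.2 (Continuous.prodMk ?_ ?_)
  · refine continuous_pi fun n => ?_
    exact hev.comp (continuous_fst.prodMk ((continuous_eval_τp n).comp continuous_snd))
  · refine continuous_pi fun n => ?_
    exact hev'.comp (continuous_snd.prodMk ((continuous_eval_symm_τp n).comp continuous_fst))

/-! ### The topologies on the points -/

/-- The topologies on the points: the discrete one, and for each fixed point the topology in which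
the other points are isolated and its neighbourhoods are cofinite. -/
@[reducible] def τX {k : ℕ} : Option (Fin k) → TopologicalSpace (X k)
  | none => ⊥
  | some i => nhdsAdjoint (Sum.inr i) cofinite

theorem nhds_τX_same {k : ℕ} (i : Fin k) :
    @nhds (X k) (τX (some i)) (Sum.inr i) = pure (Sum.inr i) ⊔ cofinite :=
  nhds_nhdsAdjoint_same _ _

theorem nhds_τX_ne {k : ℕ} (i : Fin k) {x : X k} (h : x ≠ Sum.inr i) :
    @nhds (X k) (τX (some i)) x = pure x :=
  nhds_nhdsAdjoint_of_ne _ h

theorem isOpen_singleton_τX {k : ℕ} (i : Fin k) {x : X k} (h : x ≠ Sum.inr i) :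
    IsOpen[τX (some i)] {x} :=
  isOpen_singleton_nhdsAdjoint _ h

theorem polish_cofinite {Y : Type} [Countable Y] (a : Y) :
    @PolishSpace Y (nhdsAdjoint a cofinite) := by
  let _ : TopologicalSpace Y := nhdsAdjoint a cofinite
  have hs : 𝓝 a = pure a ⊔ cofinite := nhds_nhdsAdjoint_same a cofinite
  have hn : ∀ b, b ≠ a → 𝓝 b = pure b := fun b hb => nhds_nhdsAdjoint_of_ne _ hb
  have ho : ∀ b, b ≠ a → IsOpen {b} := fun b hb => isOpen_singleton_nhdsAdjoint _ hb
  have hco : ∀ b, b ≠ a → IsOpen {b}ᶜ := by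
    intro b hb
    refine isOpen_iff_mem_nhds.2 fun x hx => ?_
    rcases eq_or_ne x a with rfl | hxa
    · rw [hs]
      exact ⟨hx, (finite_singleton b).compl_mem_cofinite⟩
    · rw [hn x hxa]
      exact hx
  have ht2 : T2Space Y := by
    refine ⟨fun x y hxy => ?_⟩
    rcases eq_or_ne x a with rfl | hxa
    · exact ⟨{y}ᶜ, {y}, hco y hxy.symm, ho y hxy.symm, hxy, rfl, disjoint_compl_left⟩
    · exact ⟨{x}, {x}ᶜ, ho x hxa, hco x hxa, rfl, hxy.symm, disjoint_compl_right⟩
  have hcomp : CompactSpace Y := by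
    refine ⟨isCompact_iff_ultrafilter_le_nhds.2 fun F _ => ?_⟩
    rcases F.le_cofinite_or_eq_pure with h | ⟨x, hx⟩
    · exact ⟨a, mem_univ _, h.trans (hs ▸ le_sup_right)⟩
    · exact ⟨x, mem_univ _, hx ▸ pure_le_nhds x⟩
  have hcof : IsCountablyGenerated (cofinite : Filter Y) := by
    have h1 : (cofinite : Filter Y).HasCountableBasis (fun s : Set Y => s.Finite) compl :=
      ⟨hasBasis_cofinite, Set.Countable.ofPred_finite⟩
    exact h1.isCountablyGenerated
  have hfc : FirstCountableTopology Y := by
    refine ⟨fun x => ?_⟩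
    rcases eq_or_ne x a with rfl | hxa
    · rw [hs]; infer_instance
    · rw [hn x hxa]; infer_instance
  have hsc : SecondCountableTopology Y := inferInstance
  have hm : MetrizableSpace Y := inferInstance
  let _ : MetricSpace Y := metrizableSpaceMetric Y
  infer_instance

theorem polish_τX {k : ℕ} (o : Option (Fin k)) : @PolishSpace (X k) (τX o) := by
  rcases o with _ | i
  · let _ : TopologicalSpace (X k) := ⊥
    have : DiscreteTopology (X k) := ⟨rfl⟩
    change PolishSpace (X k)
    infer_instance
  · exact polish_cofinite _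

theorem continuous_act {k : ℕ} (o : Option (Fin k)) :
    @Continuous (Equiv.Perm ℕ × X k) (X k) (@instTopologicalSpaceProd _ _ τp (τX o)) (τX o)
      (fun q => act q.1 q.2) := by
  let _ : TopologicalSpace (Equiv.Perm ℕ) := τp
  let _ : TopologicalSpace (X k) := τX o
  -- continuity in the first variable, locally constant
  have h1 : ∀ (x : X k) (g : Equiv.Perm ℕ), ∀ᶠ h in 𝓝 g, act h x = act g x := by
    intro x g
    rcases x with n | j
    · have := (continuous_eval_τp n).tendsto g
      rw [nhds_discrete ℕ, tendsto_pure] at this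
      filter_upwards [this] with h hh
      exact congrArg Sum.inl hh
    · exact Filter.Eventually.of_forall fun h => rfl
  rw [continuous_iff_continuousAt]
  rintro ⟨g, x⟩
  by_cases hx : 𝓝 x = pure x
  · have h2 : ∀ᶠ q : Equiv.Perm ℕ × X k in 𝓝 (g, x), act q.1 q.2 = act g x := by
      rw [nhds_prod_eq, hx, prod_pure, eventually_map]
      exact h1 x g
    exact (tendsto_congr' h2).2 tendsto_const_nhds
  · rcases o with _ | i
    · exfalso
      apply hx
      have : DiscreteTopology (X k) := ⟨rfl⟩
      rw [nhds_discrete (X k)]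
    · have hxi : x = Sum.inr i := by
        by_contra hne
        exact hx (nhds_τX_ne i hne)
      subst hxi
      change Tendsto _ (𝓝 (g, Sum.inr i)) (𝓝 (Sum.inr i))
      rw [show 𝓝 (Sum.inr i : X k) = pure (Sum.inr i) ⊔ cofinite from nhds_τX_same i]
      intro V hV
      obtain ⟨hV1, hV2⟩ := hV
      have hV3 : Vᶜ.Finite := hV2
      rw [nhds_prod_eq, show 𝓝 (Sum.inr i : X k) = pure (Sum.inr i) ⊔ cofinite from nhds_τX_same i]
      -- the finitely many preimages
      have h3 : ∀ᶠ h in 𝓝 g, ∀ m, (Sum.inl m : X k) ∈ Vᶜ → h.symm m = g.symm m := by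
        have hfin : {m : ℕ | (Sum.inl m : X k) ∈ Vᶜ}.Finite :=
          hV3.preimage Sum.inl_injective.injOn
        have := (Filter.eventually_all_finite hfin (l := 𝓝 g)
          (p := fun m h => h.symm m = g.symm m)).2 fun m _ => by
            have := (continuous_eval_symm_τp m).tendsto g
            rw [nhds_discrete ℕ, tendsto_pure] at this
            exact this
        exact this
      have h4 : (act g ⁻¹' V) ∩ V ∈ (pure (Sum.inr i) ⊔ cofinite : Filter (X k)) := by
        refine ⟨⟨hV1, hV1⟩, ?_⟩
        refine inter_mem ?_ hV2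
        have : (act g ⁻¹' V)ᶜ = act g ⁻¹' Vᶜ := rfl
        change ((act g ⁻¹' V)ᶜ).Finite
        rw [this]
        refine hV3.preimage (Function.Injective.injOn ?_)
        exact Sum.map_injective.2 ⟨g.injective, Function.injective_id⟩
      rw [mem_map]
      refine mem_of_superset (prod_mem_prod h3 h4) ?_
      rintro q ⟨hq1, hq2⟩
      by_contra hcon
      change act q.1 q.2 ∉ V at hcon
      rcases hqx : q.2 with n | j
      · rw [hqx] at hcon hq2
        have h5 : (Sum.inl (q.1 n) : X k) ∈ Vᶜ := hcon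
        have h6 : q.1.symm (q.1 n) = g.symm (q.1 n) := hq1 _ h5
        rw [Equiv.symm_apply_apply] at h6
        have h7 : g n = q.1 n := by rw [h6, Equiv.apply_symm_apply]; rw [← h6]
        apply h5
        rw [← h7]
        exact hq2.1
      · rw [hqx] at hcon hq2
        exact hcon hq2.2

/-! ### The topologies on the semigroup -/

/-- The topologies on the semigroup. -/
@[reducible] def τS {k : ℕ} (o : Option (Fin k)) : TopologicalSpace (Sg k) :=
  @instTopologicalSpaceSum (Equiv.Perm ℕ) (X k) τp (τX o)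

theorem polish_τS {k : ℕ} (o : Option (Fin k)) : @PolishSpace (Sg k) (τS o) := by
  let _ : TopologicalSpace (Equiv.Perm ℕ) := τp
  let _ : TopologicalSpace (X k) := τX o
  have : PolishSpace (Equiv.Perm ℕ) := polish_τp
  have : PolishSpace (X k) := polish_τX o
  change PolishSpace (Equiv.Perm ℕ ⊕ X k)
  infer_instance

theorem continuousMul_τS {k : ℕ} (o : Option (Fin k)) : @ContinuousMul (Sg k) (τS o) _ := by
  let _ : TopologicalSpace (Equiv.Perm ℕ) := τp
  let _ : TopologicalSpace (X k) := τX o
  let _ : TopologicalSpace (Sg k) := τS o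
  have hG : IsOpenEmbedding (iG (k := k)) := IsOpenEmbedding.inl
  have hX : IsOpenEmbedding (iX (k := k)) := IsOpenEmbedding.inr
  refine ⟨continuous_iff_continuousAt.2 ?_⟩
  rintro ⟨s, t⟩
  rcases s with g | x
  · rcases t with h | y
    · change Tendsto (fun q : Sg k × Sg k => q.1 * q.2) (𝓝 (iG g, iG h)) (𝓝 (iG (g * h)))
      rw [nhds_prod_eq, ← hG.map_nhds_eq, ← hG.map_nhds_eq, prod_map_map_eq, tendsto_map'_iff,
        ← nhds_prod_eq]
      exact (hG.continuous.comp continuous_mul_τp).tendsto (g, h)
    · change Tendsto (fun q : Sg k × Sg k => q.1 * q.2) (𝓝 (iG g, iX y)) (𝓝 (iX (act g y)))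
      rw [nhds_prod_eq, ← hG.map_nhds_eq, ← hX.map_nhds_eq, prod_map_map_eq, tendsto_map'_iff,
        ← nhds_prod_eq]
      exact (hX.continuous.comp (continuous_act o)).tendsto (g, y)
  · change Tendsto (fun q : Sg k × Sg k => q.1 * q.2) (𝓝 (iX x, t)) (𝓝 (iX x))
    have h1 : ∀ᶠ q : Sg k × Sg k in 𝓝 (iX x, t), q.1 * q.2 = q.1 := by
      rw [nhds_prod_eq, ← hX.map_nhds_eq]
      refine Filter.Eventually.prod_inl ?_ _ |>.mono (p := fun q => q.1 ∈ range (iX (k := k))) ?_
      · rw [eventually_map]
        exact Filter.Eventually.of_forall fun y => mem_range_self y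
      · rintro ⟨q1, q2⟩ ⟨y, hy⟩
        change iX y = q1 at hy
        rw [← hy]
        rfl
    refine (tendsto_congr' h1).2 ?_
    exact continuous_fst.tendsto _

end Pool.Agent.Q302.NS
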