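import Pool.Agent.Q302.NS.Auto
import Pool.Agent.Q302.NS.Sg

/-! # The classification of the Polish semigroup topologies -/

set_option autoImplicit false

open Set Topology Filter TopologicalSpace

namespace Pool.Agent.Q302.NS

/-- An infinite coinfinite set of natural numbers is swapped with its complement. -/
theorem exists_swap {A : Set ℕ} (hA : A.Infinite) (hA' : Aᶜ.Infinite) :
    ∃ g : Equiv.Perm ℕ, ∀ n ∈ A, g n ∉ A := by
  have : Infinite A := hA.to_subtype
  have : Infinite (Aᶜ : Set ℕ) := hA'.to_subtype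
  obtain ⟨e⟩ : Nonempty (A ≃ (Aᶜ : Set ℕ)) := by
    obtain ⟨a⟩ : Nonempty (A ≃ ℕ) := ⟨(nonempty_denumerable A).some.eqv⟩
    obtain ⟨b⟩ : Nonempty ((Aᶜ : Set ℕ) ≃ ℕ) := ⟨(nonempty_denumerable (Aᶜ : Set ℕ)).some.eqv⟩
    exact ⟨a.trans b.symm⟩
  classical
  refine ⟨(Equiv.Set.sumCompl A).symm.trans ((Equiv.sumCongr e e.symm).trans
      ((Equiv.sumComm _ _).trans (Equiv.Set.sumCompl A))), fun n hn => ?_⟩
  simp only [Equiv.trans_apply]
  rw [Equiv.Set.sumCompl_symm_apply_of_mem hn]
  simp only [Equiv.sumCongr_apply, Sum.map_inl, Equiv.sumComm_apply, Sum.swap_inl,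
    Equiv.Set.sumCompl_apply_inr]
  exact (e ⟨n, hn⟩).2

section Class

variable {k : ℕ} (τ : TopologicalSpace (Sg k)) (hP : @PolishSpace (Sg k) τ)
  (hM : @ContinuousMul (Sg k) τ _)

include hP hM

theorem isClosed_range_iX : IsClosed[τ] (range (iX (k := k))) := by
  let _ := τ
  have h1 : range (iX (k := k)) = {s | s * iG (Equiv.swap 0 1) = s} := by
    ext s
    constructor
    · rintro ⟨x, rfl⟩
      rfl
    · intro hs
      rcases s with g | x
      · exfalso
        have h2 : (iG (g * Equiv.swap 0 1) : Sg k) = iG g := hs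
        have h3 := iG_injective h2
        have h4 : Equiv.swap (0 : ℕ) 1 = 1 := by
          have := congrArg (fun x => g⁻¹ * x) h3
          simpa using this
        have h5 := congrArg (fun e : Equiv.Perm ℕ => e 0) h4
        simp at h5
      · exact ⟨x, rfl⟩
  rw [h1]
  exact isClosed_eq (continuous_id.mul continuous_const) continuous_id

theorem isOpen_range_iG : IsOpen[τ] (range (iG (k := k))) := by
  have h : (range (iG (k := k))) = (range (iX (k := k)))ᶜ := by
    ext s
    rcases s with g | x
    · exact ⟨fun _ ⟨y, hy⟩ => iG_ne_iX g y hy.symm, fun _ => ⟨g, rfl⟩⟩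
    · exact ⟨fun ⟨g, hg⟩ => (iG_ne_iX g x hg).elim, fun h => (h ⟨x, rfl⟩).elim⟩
  rw [h]
  exact (isClosed_range_iX τ hP hM).isOpen_compl

/-- The topology induced on the points. -/
@[reducible] def tX : TopologicalSpace (X k) := TopologicalSpace.induced iX τ

omit hP hM in
theorem isEmbedding_iX : @IsEmbedding (X k) (Sg k) (tX τ) τ iX :=
  @IsEmbedding.mk _ _ (tX τ) τ _ (@IsInducing.mk _ _ (tX τ) τ _ rfl) iX_injective

theorem isClosedEmbedding_iX : @IsClosedEmbedding (X k) (Sg k) (tX τ) τ iX :=
  @IsClosedEmbedding.mk _ _ (tX τ) τ _ (isEmbedding_iX τ) (isClosed_range_iX τ hP hM)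

theorem polish_tX : @PolishSpace (X k) (tX τ) :=
  @IsClosedEmbedding.polishSpace _ _ (tX τ) τ hP _ (isClosedEmbedding_iX τ hP hM)

omit hP in
theorem continuous_act_tX (g : Equiv.Perm ℕ) : @Continuous _ _ (tX τ) (tX τ) (act (k := k) g) := by
  let _ := τ
  let _ := tX τ
  refine continuous_induced_rng.2 ?_
  have h : (iX ∘ act g : X k → Sg k) = fun x => iG g * iX x := rfl
  rw [h]
  exact continuous_const.mul (isEmbedding_iX τ).continuous

/-- The natural numbers are isolated. -/
theorem isOpen_inl (n : ℕ) : IsOpen[tX τ] {(Sum.inl n : X k)} := by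
  let _ := τ
  let _ := tX τ
  have hpx : PolishSpace (X k) := polish_tX τ hP hM
  have ho : IsOpen (range (Sum.inl : ℕ → X k)) := by
    have h1 : range (Sum.inl : ℕ → X k) = (range (Sum.inr : Fin k → X k))ᶜ := by
      ext x; rcases x with m | j <;> simp
    rw [h1]
    exact (finite_range _).isClosed.isOpen_compl
  have hp2 : PolishSpace (range (Sum.inl : ℕ → X k)) := ho.polishSpace
  have hne : Nonempty (range (Sum.inl : ℕ → X k)) := ⟨⟨Sum.inl 0, 0, rfl⟩⟩
  obtain ⟨⟨_, m, rfl⟩, hx⟩ : ∃ x : range (Sum.inl : ℕ → X k), (interior {x}).Nonempty := by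
    refine nonempty_interior_of_iUnion_of_closed (fun x => isClosed_singleton) ?_
    exact iUnion_of_singleton _
  have h2 : IsOpen {(⟨Sum.inl m, m, rfl⟩ : range (Sum.inl : ℕ → X k))} := by
    obtain ⟨y, hy⟩ := hx
    have h3 : y = ⟨Sum.inl m, m, rfl⟩ := mem_singleton_iff.1 (interior_subset hy)
    have h4 : interior {(⟨Sum.inl m, m, rfl⟩ : range (Sum.inl : ℕ → X k))} =
        {(⟨Sum.inl m, m, rfl⟩ : range (Sum.inl : ℕ → X k))} := by
      refine Subset.antisymm interior_subset ?_
      rintro z rfl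
      rw [h3] at hy
      exact hy
    rw [← h4]
    exact isOpen_interior
  have h5 : IsOpen {(Sum.inl m : X k)} := by
    have := ho.isOpenMap_subtype_val _ h2
    simpa using this
  have h6 : {(Sum.inl n : X k)} = act (Equiv.swap n m) ⁻¹' {Sum.inl m} := by
    ext x
    rcases x with l | j
    · simp only [act, mem_singleton_iff, mem_preimage, Sum.map_inl, Sum.inl.injEq]
      constructor
      · rintro rfl; simp
      · intro h
        have := congrArg (Equiv.swap n m) h
        simpa using this
    · simp [act]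
  rw [h6]
  exact h5.preimage (continuous_act_tX τ hM _)

/-- The topology of the points. -/
theorem exists_tX : ∃ o : Option (Fin k), tX τ = τX o := by
  let _ := τ
  let _ := tX τ
  have hpx : PolishSpace (X k) := polish_tX τ hP hM
  by_cases hdis : ∀ i : Fin k, IsOpen {(Sum.inr i : X k)}
  · refine ⟨none, ?_⟩
    have : DiscreteTopology (X k) := by
      refine discreteTopology_iff_isOpen_singleton.2 fun x => ?_
      rcases x with n | i
      · exact isOpen_inl τ hP hM n
      · exact hdis i
    exact this.eq_bot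
  · push Not at hdis
    obtain ⟨i, hi⟩ := hdis
    refine ⟨some i, ?_⟩
    -- finite open sets
    have hfin : ∀ U : Set (X k), IsOpen U → U.Finite → ∀ x ∈ U, IsOpen {x} := by
      intro U hU hUf x hx
      have h1 : {x} = U ∩ (U \ {x})ᶜ := by
        ext y
        simp only [mem_singleton_iff, mem_inter_iff, mem_compl_iff, Set.mem_sdiff, not_and, not_not]
        constructor
        · rintro rfl; exact ⟨hx, fun _ => rfl⟩
        · rintro ⟨h1, h2⟩; exact h2 h1
      rw [h1]
      exact hU.inter (hUf.subset sdiff_subset).isClosed.isOpen_compl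
    -- neighbourhoods of the point are cofinite
    have hcof : ∀ U : Set (X k), IsOpen U → Sum.inr i ∈ U → Uᶜ.Finite := by
      intro U hU hiU
      by_contra hcon
      set A : Set ℕ := Sum.inl ⁻¹' U with hA
      have hAi : ∀ V : Set (X k), IsOpen V → Sum.inr i ∈ V →
          (Sum.inl ⁻¹' V : Set ℕ).Infinite := by
        intro V hV hiV hf
        refine hi (hfin V hV ?_ _ hiV)
        have : V ⊆ Sum.inl '' (Sum.inl ⁻¹' V) ∪ range (Sum.inr : Fin k → X k) := by
          intro x hx
          rcases x with n | j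
          · exact Or.inl ⟨n, hx, rfl⟩
          · exact Or.inr ⟨j, rfl⟩
        exact ((hf.image _).union (finite_range _)).subset this
      have hAc : (Aᶜ).Infinite := by
        intro hf
        refine hcon ?_
        have : Uᶜ ⊆ Sum.inl '' Aᶜ ∪ range (Sum.inr : Fin k → X k) := by
          intro x hx
          rcases x with n | j
          · exact Or.inl ⟨n, hx, rfl⟩
          · exact Or.inr ⟨j, rfl⟩
        exact ((hf.image _).union (finite_range _)).subset this
      obtain ⟨g, hg⟩ := exists_swap (hAi U hU hiU) hAc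
      have h2 := hAi (U ∩ act g ⁻¹' U) (hU.inter (hU.preimage (continuous_act_tX (k := k) τ hM g)))
        ⟨hiU, hiU⟩
      obtain ⟨n, hn⟩ := h2.nonempty
      exact hg n hn.1 hn.2
    have hnh : ∀ x : X k, x ≠ Sum.inr i → IsOpen {x} := by
      intro x hx
      obtain ⟨U, V, hU, hV, hxU, hiV, hd⟩ := t2_separation hx
      have hUV : U ⊆ Vᶜ := hd.subset_compl_right
      exact hfin U hU ((hcof V hV hiV).subset hUV) x hxU
    refine TopologicalSpace.ext_nhds fun x => ?_
    rcases eq_or_ne x (Sum.inr i) with rfl | hx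
    · rw [nhds_τX_same i]
      refine le_antisymm ?_ ?_
      · intro U hU
        obtain ⟨hU1, hU2⟩ := hU
        have hU3 : Uᶜ.Finite := hU2
        have : IsOpen U := by
          have := hU3.isClosed.isOpen_compl
          rwa [compl_compl] at this
        exact this.mem_nhds hU1
      · intro U hU
        obtain ⟨V, hVU, hV, hiV⟩ := mem_nhds_iff.1 hU
        refine ⟨hVU hiV, ?_⟩
        exact mem_of_superset (show V ∈ cofinite from hcof V hV hiV) hVU
    · rw [nhds_τX_ne i hx]
      exact (isOpen_singleton_iff_nhds_eq_pure x).1 (hnh x hx)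

/-- The topology induced on the permutations. -/
@[reducible] def tG : TopologicalSpace (Equiv.Perm ℕ) := TopologicalSpace.induced (iG (k := k)) τ

omit hP hM in
theorem isEmbedding_iG : @IsEmbedding _ (Sg k) (tG τ) τ iG :=
  @IsEmbedding.mk _ _ (tG τ) τ _ (@IsInducing.mk _ _ (tG τ) τ _ rfl) iG_injective

theorem isOpenEmbedding_iG : @IsOpenEmbedding _ (Sg k) (tG τ) τ iG :=
  @IsOpenEmbedding.mk _ _ (tG τ) τ _ (isEmbedding_iG τ) (isOpen_range_iG τ hP hM)

theorem polish_tG : @PolishSpace _ (tG τ) := by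
  let _ := τ
  let _ := tG τ
  have h1 : PolishSpace (range (iG (k := k))) := (isOpen_range_iG τ hP hM).polishSpace
  exact (isEmbedding_iG τ).toHomeomorph.isClosedEmbedding.polishSpace

theorem tG_eq : tG τ = τp := by
  let _ := τ
  refine eq_of_le τp (tG τ) polish_τp (polish_tG τ hP hM) ?_ ?_ ?_ ?_
  · -- finer than the pointwise topology
    let _ : TopologicalSpace (X k) := tX τ
    have hev : ∀ (n m : ℕ), IsOpen[tG τ] {g : Equiv.Perm ℕ | g n = m} := by
      intro n m
      let _ := tG τ
      have h1 : Continuous fun g : Equiv.Perm ℕ => (act g (Sum.inl n) : X k) := by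
        refine (isEmbedding_iX τ).continuous_iff.2 ?_
        have h0 : (iX ∘ fun g : Equiv.Perm ℕ => (act g (Sum.inl n) : X k)) =
            fun g : Equiv.Perm ℕ => (iG g : Sg k) * iX (Sum.inl n) := rfl
        rw [h0]
        exact (isEmbedding_iG τ).continuous.mul continuous_const
      have h2 := (isOpen_inl τ hP hM m).preimage h1
      have h3 : {g : Equiv.Perm ℕ | g n = m} =
          (fun g : Equiv.Perm ℕ => (act g (Sum.inl n) : X k)) ⁻¹' {Sum.inl m} := by
        ext g
        simp [act]
      rw [h3]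
      exact h2
    have hc1 : @Continuous _ _ (tG τ) _ (fun g : Equiv.Perm ℕ => (g : ℕ → ℕ)) := by
      let _ := tG τ
      refine continuous_pi fun n => continuous_discrete_rng.2 fun m => ?_
      exact hev n m
    have hc2 : @Continuous _ _ (tG τ) _ (fun g : Equiv.Perm ℕ => (g.symm : ℕ → ℕ)) := by
      let _ := tG τ
      refine continuous_pi fun n => continuous_discrete_rng.2 fun m => ?_
      have : (fun g : Equiv.Perm ℕ => g.symm n) ⁻¹' {m} = {g : Equiv.Perm ℕ | g m = n} := by
        ext g
        simp only [mem_preimage, mem_singleton_iff, Set.mem_ofPred_eq]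
        rw [Equiv.symm_apply_eq]
        exact eq_comm
      rw [this]
      exact hev m n
    exact continuous_iff_le_induced.1 (@Continuous.prodMk _ _ _ _ _ (tG τ) _ _ hc1 hc2)
  · intro g
    let _ := τp
    exact continuous_mul_τp.comp (continuous_const.prodMk continuous_id)
  · intro g
    let _ := τp
    exact continuous_mul_τp.comp (continuous_id.prodMk continuous_const)
  · intro g
    let _ := tG τ
    refine (isEmbedding_iG τ).continuous_iff.2 ?_
    have h0 : (iG ∘ fun x : Equiv.Perm ℕ => x * g) = fun x : Equiv.Perm ℕ => (iG x : Sg k) * iG g := rfl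
    rw [h0]
    exact (isEmbedding_iG τ).continuous.mul continuous_const

/-- The permutations form a closed set. -/
theorem isOpen_range_iX : IsOpen[τ] (range (iX (k := k))) := by
  let _ := τ
  let _ : TopologicalSpace (X k) := tX τ
  have hpx : PolishSpace (X k) := polish_tX τ hP hM
  by_contra hcon
  have h0 : ∃ x : X k, range (iX (k := k)) ∉ 𝓝 (iX x) := by
    by_contra hall
    push Not at hall
    apply hcon
    rw [isOpen_iff_mem_nhds]
    rintro _ ⟨x, rfl⟩
    exact hall x
  obtain ⟨x, hx⟩ := h0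
  set F : Filter (Equiv.Perm ℕ) := comap iG (𝓝 (iX x : Sg k)) with hF
  have hFne : F.NeBot := by
    rw [hF, comap_neBot_iff]
    intro V hV
    by_contra hno
    push Not at hno
    refine hx (mem_of_superset hV ?_)
    intro s hs
    rcases s with g | y
    · exact (hno g hs).elim
    · exact ⟨y, rfl⟩
  -- the limit of the orbits
  have hlim : ∀ y : X k, Tendsto (fun g : Equiv.Perm ℕ => act g y) F (𝓝 x) := by
    intro y
    rw [(isEmbedding_iX τ).tendsto_nhds_iff]
    have h1 : Tendsto (fun g : Equiv.Perm ℕ => (iG g * iX y : Sg k)) F (𝓝 (iX x * iX y)) :=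
      Tendsto.mul tendsto_comap tendsto_const_nhds
    exact h1
  -- the limit is a fixed point
  obtain ⟨i, rfl⟩ : ∃ i : Fin k, x = Sum.inr i := by
    rcases x with m | i
    · exfalso
      have h1 := (hlim (Sum.inl 0)).eventually ((isOpen_inl τ hP hM m).mem_nhds rfl)
      have h2 := (hlim (Sum.inl 1)).eventually ((isOpen_inl τ hP hM m).mem_nhds rfl)
      obtain ⟨g, hg1, hg2⟩ := (h1.and h2).exists
      have h3 : g 0 = m := Sum.inl_injective hg1
      have h4 : g 1 = m := Sum.inl_injective hg2
      exact zero_ne_one (g.injective (h3.trans h4.symm))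
    · exact ⟨i, rfl⟩
  -- the point is not isolated, so its neighbourhoods are cofinite
  obtain ⟨o, ho⟩ := exists_tX τ hP hM
  have hnot : ∀ n : ℕ, ∀ᶠ g in F, g n ≠ 0 := by
    intro n
    have h1 := (hlim (Sum.inl n)).eventually
      ((isOpen_compl_singleton (x := (Sum.inl 0 : X k))).mem_nhds (by simp))
    filter_upwards [h1] with g hg h
    apply hg
    change Sum.inl (g n) = Sum.inl 0
    rw [h]
  have hcof : ∀ U ∈ 𝓝 (Sum.inr i : X k), Uᶜ.Finite := by
    intro U hU
    rcases o with _ | j
    · exfalso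
      have hsing : {(Sum.inr i : X k)} ∈ 𝓝 (Sum.inr i : X k) := by
        have : DiscreteTopology (X k) := ⟨ho⟩
        exact (isOpen_discrete _).mem_nhds rfl
      obtain ⟨g, hg⟩ := ((hlim (Sum.inl 0)).eventually hsing).exists
      have : (Sum.inl (g 0) : X k) = Sum.inr i := hg
      exact Sum.inl_ne_inr this
    · rcases eq_or_ne i j with rfl | hij
      · have h1 : U ∈ @nhds (X k) (τX (some i)) (Sum.inr i) := by
          rw [← ho]; exact hU
        rw [nhds_τX_same] at h1
        exact h1.2
      · exfalso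
        have hsing : {(Sum.inr i : X k)} ∈ 𝓝 (Sum.inr i : X k) := by
          have h1 : IsOpen[tX τ] {(Sum.inr i : X k)} := by
            rw [ho]
            exact isOpen_singleton_τX j (by simpa using hij)
          exact h1.mem_nhds rfl
        obtain ⟨g, hg⟩ := ((hlim (Sum.inl 0)).eventually hsing).exists
        have : (Sum.inl (g 0) : X k) = Sum.inr i := hg
        exact Sum.inl_ne_inr this
  -- joint continuity
  have hT : {s : Sg k | s ≠ iX (Sum.inl 0)} ∈ 𝓝 (iX (Sum.inr i) * iX (Sum.inr i) : Sg k) := by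
    refine (isOpen_compl_singleton (x := (iX (Sum.inl 0) : Sg k))).mem_nhds ?_
    change iX (Sum.inr i) ≠ iX (Sum.inl 0)
    intro h
    exact Sum.inr_ne_inl (iX_injective h)
  have hjc := (continuous_mul (M := Sg k)).tendsto (iX (Sum.inr i), iX (Sum.inr i)) hT
  rw [mem_map, nhds_prod_eq, mem_prod_same_iff] at hjc
  obtain ⟨W, hW, hWW⟩ := hjc
  have hWX : iX ⁻¹' W ∈ 𝓝 (Sum.inr i : X k) := (isEmbedding_iX τ).continuous.tendsto _ hW
  have hfinN : {n : ℕ | (Sum.inl n : X k) ∉ iX ⁻¹' W}.Finite :=
    (hcof _ hWX).preimage Sum.inl_injective.injOn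
  have h1 : ∀ᶠ g in F, ∀ n ∈ {n : ℕ | (Sum.inl n : X k) ∉ iX ⁻¹' W}, g n ≠ 0 :=
    (Filter.eventually_all_finite hfinN).2 fun n _ => hnot n
  have h2 : ∀ᶠ g in F, (iG g : Sg k) ∈ W := tendsto_comap hW
  obtain ⟨g, hg1, hg2⟩ := (h1.and h2).exists
  have h3 : (iX (Sum.inl (g.symm 0)) : Sg k) ∈ W := by
    by_contra hno
    exact hg1 (g.symm 0) hno (g.apply_symm_apply 0)
  have h4 := hWW (mk_mem_prod hg2 h3)
  apply h4
  change iX (act g (Sum.inl (g.symm 0))) = iX (Sum.inl 0)
  change (iX (Sum.inl (g (g.symm 0))) : Sg k) = iX (Sum.inl 0)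
  rw [g.apply_symm_apply]

theorem exists_eq_τS : ∃ o : Option (Fin k), τ = τS o := by
  obtain ⟨o, ho⟩ := exists_tX τ hP hM
  refine ⟨o, ?_⟩
  have hG := tG_eq τ hP hM
  have h1 : @IsOpenEmbedding (X k) (Sg k) (tX τ) τ iX :=
    @IsOpenEmbedding.mk _ _ (tX τ) τ _ (isEmbedding_iX τ) (isOpen_range_iX τ hP hM)
  have h2 := isOpenEmbedding_iG τ hP hM
  have h3 : @IsOpenEmbedding (X k) (Sg k) (τX o) (τS o) iX :=
    @IsOpenEmbedding.inr (Equiv.Perm ℕ) (X k) τp (τX o)
  have h4 : @IsOpenEmbedding (Equiv.Perm ℕ) (Sg k) τp (τS o) iG :=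
    @IsOpenEmbedding.inl (Equiv.Perm ℕ) (X k) τp (τX o)
  refine TopologicalSpace.ext_nhds fun s => ?_
  rcases s with g | x
  · have e1 := @IsOpenEmbedding.map_nhds_eq _ _ _ (tG τ) τ h2 g
    have e2 := @IsOpenEmbedding.map_nhds_eq _ _ _ τp (τS o) h4 g
    rw [hG] at e1
    exact e1.symm.trans e2
  · have e1 := @IsOpenEmbedding.map_nhds_eq _ _ _ (tX τ) τ h1 x
    have e2 := @IsOpenEmbedding.map_nhds_eq _ _ _ (τX o) (τS o) h3 x
    rw [ho] at e1
    exact e1.symm.trans e2

end Class

theorem τS_injective {k : ℕ} : Function.Injective (τS (k := k)) := by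
  have key : ∀ o : Option (Fin k), ∀ i : Fin k,
      (IsOpen[τS o] {(iX (Sum.inr i) : Sg k)} ↔ o ≠ some i) := by
    intro o i
    have h3 : @IsOpenEmbedding (X k) (Sg k) (τX o) (τS o) iX :=
      @IsOpenEmbedding.inr (Equiv.Perm ℕ) (X k) τp (τX o)
    have h1 : IsOpen[τS o] {(iX (Sum.inr i) : Sg k)} ↔ IsOpen[τX o] {(Sum.inr i : X k)} := by
      rw [← image_singleton]
      exact (@IsOpenEmbedding.isOpen_iff_image_isOpen _ _ _ (τX o) (τS o) h3 _).symm
    rw [h1]
    rcases o with _ | j
    · refine ⟨fun _ h => by simp at h, fun _ => ?_⟩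
      let _ : TopologicalSpace (X k) := ⊥
      have : DiscreteTopology (X k) := ⟨rfl⟩
      exact isOpen_discrete _
    · constructor
      · rintro h hij
        obtain rfl : j = i := Option.some_injective _ hij
        have h2 : {(Sum.inr j : X k)} ∈ @nhds (X k) (τX (some j)) (Sum.inr j) := by
          let _ : TopologicalSpace (X k) := τX (some j)
          exact IsOpen.mem_nhds h rfl
        rw [nhds_τX_same] at h2
        have h3 : Set.Finite ({(Sum.inr j : X k)}ᶜ : Set (X k)) := h2.2
        refine (Set.infinite_range_of_injective (Sum.inl_injective (α := ℕ) (β := Fin k))) ?_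
        refine h3.subset ?_
        rintro _ ⟨n, rfl⟩
        exact Sum.inl_ne_inr
      · intro h
        refine isOpen_singleton_τX j ?_
        intro h'
        exact h (congrArg some (Sum.inr_injective h').symm)
  intro o o' h
  by_contra hne
  have h1 : ∀ i : Fin k, (o ≠ some i ↔ o' ≠ some i) := by
    intro i
    rw [← key o i, ← key o' i, h]
  rcases o with _ | i
  · rcases o' with _ | j
    · exact hne rfl
    · exact (h1 j).1 (by simp) rfl
  · exact (h1 i).2 (fun h => hne h.symm) rfl

end Pool.Agent.Q302.NS
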